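import Mathlib
import Pool.Agent.H567Z.MinMain2

set_option autoImplicit false

namespace Pool.Agent.Results.MP_37cedb_gt.ZmImpliesZ

open Pool.Agent.H567Z

universe u

/-- Every countably compact minimal (or totally minimal) Hausdorff topological group with
property Z_m has property Z. -/
theorem result (G : Type u) [Group G] [TopologicalSpace G] [IsTopologicalGroup G] [T2Space G]
    [CountablyCompactSpace G] (hmin : IsMinimalGroup G ∨ IsTotallyMinimalGroup G)
    (hZ : HasPropertyZm G) : HasPropertyZ G :=
  (main_pc G pc_of_cc (hmin.elim id minimal_of_totally) hZ).2.1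

end Pool.Agent.Results.MP_37cedb_gt.ZmImpliesZ
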